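import Pool.Agent.H79.BR.Targets
import Pool.Agent.H27.LS.LOWX

/-!
Module CX2 (MP_ee74d2_an, board of helper79): the `L¹` norm of the kernel of `mj` for
`Lam² ≤ 16 lam`. Adapted from `Pool/Agent/H27/LS/LOWX.lean` (helper27).
-/

set_option autoImplicit false

namespace Pool.Agent.H87.BR

open MeasureTheory Set FourierTransform
open Pool.Agent.H83.LS Pool.Agent.H93.AR Pool.Agent.H14.LS Pool.Agent.H83.AR
open Pool.Agent.H79.BR Pool.Agent.H83.LS.H27
open scoped ENNReal NNReal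

lemma contDiff_chi_hor (n : ℕ) : ContDiff ℝ (⊤ : ℕ∞) (fun x : EE (n + 1) => chi (hor x)) := by
  rw [contDiff_iff_contDiffAt]
  intro x
  by_cases hx : hor x < 1 / 2
  · have h1 : (fun x : EE (n + 1) => chi (hor x)) =ᶠ[nhds x] fun _ => (0 : ℝ) := by
      filter_upwards [(continuous_hor n).continuousAt.eventually (Iio_mem_nhds hx)] with y hy
      by_contra h3
      have h4 := (Pool.Agent.H83.LS.H27.chi_supp h3).1
      have h5 : hor y < 1 / 2 := hy
      linarith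
    exact contDiffAt_const.congr_of_eventuallyEq h1
  · push Not at hx
    have h1 : r2 x ≠ 0 := by
      intro h
      rw [Pool.Agent.H83.LS.H27.hor_eq, h, Real.sqrt_zero] at hx
      norm_num at hx
    have h2 : ContDiffAt ℝ (⊤ : ℕ∞) (hor : EE (n + 1) → ℝ) x :=
      (contDiff_r2 n).contDiffAt.sqrt h1
    exact contDiff_chi.contDiffAt.comp x h2

/-- parameters -/
lemma contDiff_par3 (n : ℕ) (i : Fin 3) :
    ContDiff ℝ (⊤ : ℕ∞) (fun q : (Fin 3 → ℝ) × EE (n + 1) => q.1 i) :=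
  (contDiff_apply ℝ ℝ i).comp contDiff_fst

/-- the rescaled symbol, `σ = ±1` -/
noncomputable def PsC {n : ℕ} (σ : ℝ) (q : (Fin 3 → ℝ) × EE (n + 1)) : ℂ :=
  e (q.1 0 * (q.1 1 * r2 q.2 / (Real.sqrt ((q.1 2) ^ 2 * r2 q.2 + (q.2 (Fin.last n)) ^ 2) +
    σ * q.2 (Fin.last n)))) *
  ((chi (Real.sqrt ((q.1 2) ^ 2 * r2 q.2 + (q.2 (Fin.last n)) ^ 2)) * chi (hor q.2) *
    th (σ * q.2 (Fin.last n)) : ℝ) : ℂ)

lemma contDiff_PsC (n : ℕ) (σ : ℝ) : ContDiff ℝ (⊤ : ℕ∞) (PsC (n := n) σ) := by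
  rw [contDiff_iff_contDiffAt]
  intro q
  have hlast : ContDiff ℝ (⊤ : ℕ∞) (fun q : (Fin 3 → ℝ) × EE (n + 1) => q.2 (Fin.last n)) :=
    (contDiff_last n).comp contDiff_snd
  have hr : ContDiff ℝ (⊤ : ℕ∞) (fun q : (Fin 3 → ℝ) × EE (n + 1) => r2 q.2) :=
    (contDiff_r2 n).comp contDiff_snd
  by_cases h0 : σ * q.2 (Fin.last n) < 1 / 8
  · have h1 : PsC (n := n) σ =ᶠ[nhds q] fun _ => (0 : ℂ) := by
      have hc : Continuous (fun q : (Fin 3 → ℝ) × EE (n + 1) => σ * q.2 (Fin.last n)) :=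
        continuous_const.mul hlast.continuous
      filter_upwards [hc.continuousAt.eventually (Iio_mem_nhds h0)] with y hy
      have h2 : th (σ * y.2 (Fin.last n)) = 0 := th_zero (le_of_lt hy)
      unfold PsC
      simp [h2]
    exact contDiffAt_const.congr_of_eventuallyEq h1
  · push Not at h0
    have h1 : 0 < (q.2 (Fin.last n)) ^ 2 := by
      have : q.2 (Fin.last n) ≠ 0 := by
        intro h
        rw [h, mul_zero] at h0
        norm_num at h0
      positivity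
    have h2 := r2_nonneg q.2
    have h3 : 0 < (q.1 2) ^ 2 * r2 q.2 + (q.2 (Fin.last n)) ^ 2 := by positivity
    have hS : ContDiffAt ℝ (⊤ : ℕ∞) (fun q : (Fin 3 → ℝ) × EE (n + 1) =>
        Real.sqrt ((q.1 2) ^ 2 * r2 q.2 + (q.2 (Fin.last n)) ^ 2)) q := by
      have h5 : ContDiff ℝ (⊤ : ℕ∞) (fun q : (Fin 3 → ℝ) × EE (n + 1) =>
          (q.1 2) ^ 2 * r2 q.2 + (q.2 (Fin.last n)) ^ 2) :=
        (((contDiff_par3 n 2).pow 2).mul hr).add (hlast.pow 2)
      exact h5.contDiffAt.sqrt h3.ne'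
    have h4 : Real.sqrt ((q.1 2) ^ 2 * r2 q.2 + (q.2 (Fin.last n)) ^ 2) +
        σ * q.2 (Fin.last n) ≠ 0 := by
      have := Real.sqrt_nonneg ((q.1 2) ^ 2 * r2 q.2 + (q.2 (Fin.last n)) ^ 2)
      have h5 : (0 : ℝ) < 1 / 8 := by norm_num
      linarith
    unfold PsC
    apply ContDiffAt.mul
    · apply contDiff_e.contDiffAt.comp q
      apply (contDiff_par3 n 0).contDiffAt.mul
      apply ContDiffAt.div
      · exact ((contDiff_par3 n 1).mul hr).contDiffAt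
      · exact hS.add (contDiff_const.mul hlast).contDiffAt
      · exact h4
    · apply Complex.ofRealCLM.contDiff.contDiffAt.comp q
      apply ContDiffAt.mul
      · apply ContDiffAt.mul
        · exact contDiff_chi.contDiffAt.comp q hS
        · exact ((contDiff_chi_hor n).comp contDiff_snd).contDiffAt
      · exact (contDiff_th.comp (contDiff_const.mul hlast)).contDiffAt

lemma supp_PsC (n : ℕ) (σ : ℝ) (p : Fin 3 → ℝ) (ξ : EE (n + 1)) (hξ : 3 < ‖ξ‖) :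
    PsC σ (p, ξ) = 0 := by
  by_contra h
  unfold PsC at h
  simp only at h
  have h1 := right_ne_zero_of_mul h
  have h2 : chi (Real.sqrt ((p 2) ^ 2 * r2 ξ + (ξ (Fin.last n)) ^ 2)) * chi (hor ξ) *
    th (σ * ξ (Fin.last n)) ≠ 0 := by exact_mod_cast h1
  have h3 := left_ne_zero_of_mul h2
  have h4 := (Pool.Agent.H83.LS.H27.chi_supp (left_ne_zero_of_mul h3)).2
  have h5 := (Pool.Agent.H83.LS.H27.chi_supp (right_ne_zero_of_mul h3)).2
  have h6 := r2_nonneg ξ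
  have h7 : (ξ (Fin.last n)) ^ 2 < 4 := by
    have h8 : Real.sqrt ((p 2) ^ 2 * r2 ξ + (ξ (Fin.last n)) ^ 2) < 2 := h4
    rw [Real.sqrt_lt' (by norm_num)] at h8
    have : 0 ≤ (p 2) ^ 2 * r2 ξ := by positivity
    linarith
  have h8 : r2 ξ < 4 := by
    have h9 : hor ξ < 2 := h5
    rw [Pool.Agent.H83.LS.H27.hor_eq, Real.sqrt_lt' (by norm_num)] at h9
    linarith
  unfold r2 at h8
  nlinarith

/-- the pointwise identity between the symbols -/
lemma symbC (n : ℕ) (lam Lam t : ℝ) (hl : 1024 ≤ lam) (hL : 1 ≤ Lam) (hX : Lam ^ 2 ≤ 16 * lam)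
    (Φ : EE n × ℝ ≃ᵐ EE (n + 1))
    (hΦ1 : ∀ y z, (Φ (y, z)) (Fin.last n) = z)
    (hΦ : ∀ (y y' : EE n) (z z' : ℝ), inner ℝ (Φ (y, z)) (Φ (y', z')) = inner ℝ y y' + z * z')
    (y : EE n) (h : ℝ) :
    mj n lam Lam t (Φ (Lam • y, lam * h)) =
      e (lam * t * h) * PsC 1 (![t, Lam ^ 2 / lam, Lam / lam], Φ (y, h)) +
      e (-(lam * t * h)) * PsC (-1) (![t, Lam ^ 2 / lam, Lam / lam], Φ (y, h)) := by
  have hl0 : 0 < lam := by linarith
  have hL0 : 0 < Lam := by linarith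
  obtain ⟨S, hS⟩ : ∃ S, S = Real.sqrt ((Lam / lam) ^ 2 * ‖y‖ ^ 2 + h ^ 2) := ⟨_, rfl⟩
  have hS0 : 0 ≤ S := by rw [hS]; exact Real.sqrt_nonneg _
  have hS2 : S ^ 2 = (Lam / lam) ^ 2 * ‖y‖ ^ 2 + h ^ 2 := by
    rw [hS]; exact Real.sq_sqrt (by positivity)
  have hny : ‖Lam • y‖ = Lam * ‖y‖ := by
    rw [norm_smul, Real.norm_of_nonneg hL0.le]
  have hnorm : ‖Φ (Lam • y, lam * h)‖ = lam * S := by
    have h1 : ‖Φ (Lam • y, lam * h)‖ ^ 2 = (lam * S) ^ 2 := by
      rw [norm_Phi Φ hΦ, mul_pow lam S, hS2, hny]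
      field_simp
    have h2 : 0 ≤ lam * S := by positivity
    exact (pow_left_inj₀ (norm_nonneg _) h2 (by norm_num)).mp h1
  have hhor : hor (Φ (Lam • y, lam * h)) = Lam * ‖y‖ := by
    rw [Pool.Agent.H83.LS.H27.hor_eq, r2_Phi Φ hΦ1 hΦ, hny, Real.sqrt_sq (by positivity)]
  have hhor' : hor (Φ (y, h)) = ‖y‖ := by
    rw [Pool.Agent.H83.LS.H27.hor_eq, r2_Phi Φ hΦ1 hΦ, Real.sqrt_sq (norm_nonneg _)]
  have hP : ∀ σ : ℝ, PsC σ (![t, Lam ^ 2 / lam, Lam / lam], Φ (y, h)) =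
      e (t * ((Lam ^ 2 / lam) * ‖y‖ ^ 2 / (S + σ * h))) *
        ((chi S * chi ‖y‖ * th (σ * h) : ℝ) : ℂ) := by
    intro σ
    unfold PsC
    simp only [Matrix.cons_val_zero, Matrix.cons_val_one, Matrix.cons_val]
    rw [r2_Phi Φ hΦ1 hΦ, hΦ1, ← hS, hhor']
  unfold mj
  rw [hP, hP, hnorm, hhor]
  rw [show lam * S / lam = S by field_simp, show Lam * ‖y‖ / Lam = ‖y‖ by field_simp]
  by_cases h0 : chi S * chi ‖y‖ = 0
  · simp [h0]
  · have h1 := Pool.Agent.H83.LS.H27.chi_supp (left_ne_zero_of_mul h0)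
    have h2 : ‖y‖ < 2 := (Pool.Agent.H83.LS.H27.chi_supp (right_ne_zero_of_mul h0)).2
    have h3 : 1 / 16 < h ^ 2 := by
      have h4 : 1 / 4 < S ^ 2 := by nlinarith [h1.1]
      have h5 : (Lam / lam) ^ 2 * ‖y‖ ^ 2 ≤ 1 / 16 := by
        have h6 : (Lam / lam) ^ 2 ≤ 1 / 64 := by
          rw [div_pow, div_le_iff₀ (by positivity)]
          nlinarith
        have h7 : ‖y‖ ^ 2 ≤ 4 := by nlinarith [norm_nonneg y]
        have h8 : 0 ≤ (Lam / lam) ^ 2 := by positivity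
        nlinarith
      linarith
    have key : ∀ σ : ℝ, σ ^ 2 = 1 → 0 < σ * h →
        t * (lam * S) = lam * t * (σ * h) + t * ((Lam ^ 2 / lam) * ‖y‖ ^ 2 / (S + σ * h)) := by
      intro σ hσ hh
      have h4 : 0 < S + σ * h := by linarith
      have h5 : (S + σ * h) * (S - σ * h) = (Lam / lam) ^ 2 * ‖y‖ ^ 2 := by
        have : (S + σ * h) * (S - σ * h) = S ^ 2 - σ ^ 2 * h ^ 2 := by ring
        rw [this, hσ, hS2]; ring
      have h6 : (Lam ^ 2 / lam) * ‖y‖ ^ 2 / (S + σ * h) = lam * (S - σ * h) := by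
        rw [div_eq_iff h4.ne']
        have h7 : lam * (S - σ * h) * (S + σ * h) = lam * ((S + σ * h) * (S - σ * h)) := by ring
        rw [h7, h5]
        field_simp
      rw [h6]; ring
    rcases lt_or_ge 0 h with hh | hh
    · have h4 : 1 / 4 < h := by nlinarith
      have h5 := key 1 (by norm_num) (by linarith)
      rw [th_one (by linarith : (1 : ℝ) / 4 ≤ 1 * h), th_zero (by linarith : -1 * h ≤ 1 / 8), h5, e_add]
      push_cast
      ring_nf
    · have h4 : 1 / 4 < -h := by nlinarith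
      have h5 := key (-1) (by norm_num) (by linarith)
      rw [th_one (by linarith : (1 : ℝ) / 4 ≤ -1 * h), th_zero (by linarith : 1 * h ≤ 1 / 8), h5, e_add]
      push_cast
      ring_nf

lemma integrable_PsC (n : ℕ) (σ : ℝ) (p : Fin 3 → ℝ) :
    Integrable (fun ξ : EE (n + 1) => PsC σ (p, ξ)) := by
  apply Continuous.integrable_of_hasCompactSupport
  · exact (contDiff_PsC n σ).continuous.comp (by fun_prop)
  · apply HasCompactSupport.intro (isCompact_closedBall (0 : EE (n + 1)) 3)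
    intro x hx
    apply supp_PsC
    rw [mem_closedBall_zero_iff, not_le] at hx
    exact hx

lemma scale_fst (n : ℕ) (L : ℝ) (hL : 0 < L) (F : EE n × ℝ → ℂ) :
    ∫ q : EE n × ℝ, F q = ((L ^ n : ℝ) : ℂ) * ∫ q : EE n × ℝ, F (L • q.1, q.2) := by
  have he : MeasurableEmbedding (fun q : EE n × ℝ => (L • q.1, q.2)) := by
    have h1 : MeasurableEmbedding (Prod.map (fun y : EE n => L • y) (id : ℝ → ℝ)) :=
      (Homeomorph.smulOfNeZero L hL.ne').measurableEmbedding.prodMap MeasurableEmbedding.id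
    exact h1
  have h2 : Measure.map (fun q : EE n × ℝ => (L • q.1, q.2)) (volume : Measure (EE n × ℝ)) =
      ENNReal.ofReal ((L ^ n)⁻¹) • (volume : Measure (EE n × ℝ)) := by
    have h3 : (fun q : EE n × ℝ => (L • q.1, q.2)) =
      Prod.map (fun y : EE n => L • y) (id : ℝ → ℝ) := rfl
    rw [h3, Measure.volume_eq_prod, ← Measure.map_prod_map _ _ (by fun_prop) measurable_id,
      Measure.map_addHaar_smul _ hL.ne', Measure.map_id, Measure.prod_smul_left,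
      finrank_euclideanSpace_fin, abs_of_pos (by positivity)]
  have h4 := he.integral_map (μ := (volume : Measure (EE n × ℝ))) F
  rw [h2, integral_smul_measure, ENNReal.toReal_ofReal (by positivity)] at h4
  rw [← h4, Complex.real_smul, ← mul_assoc, ← Complex.ofReal_mul,
    mul_inv_cancel₀ (by positivity), Complex.ofReal_one, one_mul]

lemma lint_smul (n : ℕ) (L : ℝ) (hL : 0 < L) (G : EE n → ℝ≥0∞) :
    ∫⁻ y, G (L • y) = ENNReal.ofReal ((L ^ n)⁻¹) * ∫⁻ y, G y := by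
  have he : MeasurableEmbedding (fun y : EE n => L • y) :=
    (Homeomorph.smulOfNeZero L hL.ne').measurableEmbedding
  have h4 := he.lintegral_map (μ := (volume : Measure (EE n))) G
  rw [Measure.map_addHaar_smul _ hL.ne', lintegral_smul_measure,
    finrank_euclideanSpace_fin, abs_of_pos (by positivity), smul_eq_mul] at h4
  exact h4.symm

/-- the kernel -/
lemma kerC (n : ℕ) (lam Lam t : ℝ) (hl : 1024 ≤ lam) (hL : 1 ≤ Lam) (hX : Lam ^ 2 ≤ 16 * lam)
    (Φ : EE n × ℝ ≃ᵐ EE (n + 1))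
    (hm : MeasurePreserving Φ) (hΦ1 : ∀ y z, (Φ (y, z)) (Fin.last n) = z)
    (hΦ : ∀ (y y' : EE n) (z z' : ℝ), inner ℝ (Φ (y, z)) (Φ (y', z')) = inner ℝ y y' + z * z')
    (y : EE n) (z : ℝ) :
    MK (mj n lam Lam t) (Φ (y, z)) =
      ((Lam ^ n : ℝ) : ℂ) * ((lam : ℂ) *
      (MK (fun ξ => PsC 1 (![t, Lam ^ 2 / lam, Lam / lam], ξ)) (Φ (Lam • y, lam * (z + t))) +
        MK (fun ξ => PsC (-1) (![t, Lam ^ 2 / lam, Lam / lam], ξ))
          (Φ (Lam • y, lam * (z + -t))))) := by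
  have hl0 : 0 < lam := by linarith
  have hL0 : 0 < Lam := by linarith
  have hint : ∀ σ w : ℝ, Integrable (fun q : EE n × ℝ =>
      e (inner ℝ (Lam • y) q.1 + lam * w * q.2) *
      PsC σ (![t, Lam ^ 2 / lam, Lam / lam], Φ q)) := by
    intro σ w
    have h1 : Integrable (fun q : EE n × ℝ =>
        PsC σ (![t, Lam ^ 2 / lam, Lam / lam], Φ q)) :=
      (hm.integrable_comp_emb Φ.measurableEmbedding).mpr (integrable_PsC n σ _)
    apply h1.bdd_mul (c := 1)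
    · exact (continuous_e.comp (by fun_prop)).aestronglyMeasurable
    · exact Filter.Eventually.of_forall (fun ζ => (norm_e _).le)
  rw [integral_Phi Φ hm hΦ, integral_Phi Φ hm hΦ, integral_Phi Φ hm hΦ, scale_fst n Lam hL0,
    scale_prod n lam hl0, ← integral_add (hint 1 (z + t)) (hint (-1) (z + -t))]
  congr 3
  ext q
  rw [symbC n lam Lam t hl hL hX Φ hΦ1 hΦ q.1 q.2]
  have h6 : inner ℝ (Lam • y) q.1 = inner ℝ y (Lam • q.1) := by
    rw [inner_smul_left, inner_smul_right]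
    rfl
  rw [h6, show inner ℝ y (Lam • q.1) + lam * (z + t) * q.2 =
      (inner ℝ y (Lam • q.1) + z * (lam * q.2)) + lam * t * q.2 by ring,
    show inner ℝ y (Lam • q.1) + lam * (z + -t) * q.2 =
      (inner ℝ y (Lam • q.1) + z * (lam * q.2)) + -(lam * t * q.2) by ring,
    e_add _ (lam * t * q.2), e_add _ (-(lam * t * q.2))]
  ring

lemma shiftscale2 (n : ℕ) (lam Lam c : ℝ) (hl : 0 < lam) (hL : 0 < Lam)
    (Φ : EE n × ℝ ≃ᵐ EE (n + 1))
    (hm : MeasurePreserving Φ) (g : EE (n + 1) → ℝ≥0∞) (hg : Measurable g) :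
    ∫⁻ q : EE n × ℝ, g (Φ (Lam • q.1, lam * (q.2 + c))) =
      ENNReal.ofReal ((Lam ^ n)⁻¹) * (ENNReal.ofReal (lam⁻¹) * ∫⁻ x, g x) := by
  have h1 : Measurable (fun q : EE n × ℝ => g (Φ (q.1, lam * (q.2 + c)))) :=
    (hg.comp Φ.measurable).comp (measurable_fst.prodMk (by fun_prop))
  have h2 : Measurable (fun q : EE n × ℝ => g (Φ (Lam • q.1, lam * (q.2 + c)))) :=
    (hg.comp Φ.measurable).comp ((measurable_fst.const_smul Lam).prodMk (by fun_prop))
  rw [← shiftscale n lam c hl Φ hm g hg, Measure.volume_eq_prod,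
    lintegral_prod _ h2.aemeasurable, lintegral_prod _ h1.aemeasurable]
  exact lint_smul n Lam hL (fun y => ∫⁻ z, g (Φ (y, lam * (z + c))))

theorem pf_cx2 (hKBV : T_KBV) (hSPL : T_SPL) : T_CX2 := by
  intro n _
  obtain ⟨Φ, hm, hΦ1, hΦ⟩ := hSPL n
  have hk : ∀ σ : ℝ, ∃ C : ℝ, ∀ p ∈ Icc (![1, 0, 0] : Fin 3 → ℝ) ![2, 16, 1],
      ∀ x : EE (n + 1), ‖MK (fun ξ => PsC σ (p, ξ)) x‖ * (1 + ‖x‖) ^ (n + 2) ≤ C := by
    intro σ
    exact hKBV (n + 1) 3 (Icc ![1, 0, 0] ![2, 16, 1]) univ (PsC σ) 3 isCompact_Icc isOpen_univ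
      (subset_univ _) (contDiff_PsC n σ).contDiffOn (fun p _ ξ hξ => supp_PsC n σ p ξ hξ) (n + 2)
  obtain ⟨C1, hC1⟩ := hk 1
  obtain ⟨C2, hC2⟩ := hk (-1)
  obtain ⟨J, hJ⟩ : ∃ J : ℝ≥0∞, J = ∫⁻ x : EE (n + 1), ENNReal.ofReal (((1 + ‖x‖) ^ (n + 2))⁻¹) :=
    ⟨_, rfl⟩
  have hJt : J ≠ ∞ := by rw [hJ]; exact (integrable_wN n).ne
  refine ⟨(ENNReal.ofReal |C1| * J + ENNReal.ofReal |C2| * J).toNNReal,
    fun lam Lam t hl hL ht hX => ?_⟩
  have hl0 : 0 < lam := by linarith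
  have hL0 : 0 < Lam := by linarith
  rw [ENNReal.coe_toNNReal (ENNReal.add_ne_top.mpr ⟨ENNReal.mul_ne_top ENNReal.ofReal_ne_top hJt,
    ENNReal.mul_ne_top ENNReal.ofReal_ne_top hJt⟩)]
  have hp : (![t, Lam ^ 2 / lam, Lam / lam] : Fin 3 → ℝ) ∈
      Icc (![1, 0, 0] : Fin 3 → ℝ) ![2, 16, 1] := by
    have h3 : Lam / lam ≤ 1 := by
      rw [div_le_one hl0]
      by_contra h4
      push Not at h4
      nlinarith
    have h4 : 0 ≤ Lam / lam := by positivity
    have h5 : Lam ^ 2 / lam ≤ 16 := by rw [div_le_iff₀ hl0]; exact hX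
    have h6 : 0 ≤ Lam ^ 2 / lam := by positivity
    constructor
    · intro i; fin_cases i
      · exact ht.1
      · exact h6
      · exact h4
    · intro i; fin_cases i
      · exact ht.2
      · exact h5
      · exact h3
  obtain ⟨g, hg⟩ : ∃ g : EE (n + 1) → ℝ≥0∞, g = fun x => ENNReal.ofReal (((1 + ‖x‖) ^ (n + 2))⁻¹) :=
    ⟨_, rfl⟩
  have hgm : Measurable g := by rw [hg]; fun_prop
  have hb : ∀ (C σ : ℝ), (∀ p ∈ Icc (![1, 0, 0] : Fin 3 → ℝ) ![2, 16, 1], ∀ x : EE (n + 1),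
      ‖MK (fun ξ => PsC σ (p, ξ)) x‖ * (1 + ‖x‖) ^ (n + 2) ≤ C) → ∀ x : EE (n + 1),
      ‖MK (fun ξ => PsC σ (![t, Lam ^ 2 / lam, Lam / lam], ξ)) x‖ₑ ≤
        ENNReal.ofReal |C| * g x := by
    intro C σ hC x
    rw [hg]
    simp only
    rw [← ENNReal.ofReal_mul (abs_nonneg _), ← ofReal_norm]
    apply ENNReal.ofReal_le_ofReal
    rw [← div_eq_mul_inv, le_div_iff₀ (by positivity)]
    exact (hC _ hp x).trans (le_abs_self C)
  rw [← hm.lintegral_comp_emb Φ.measurableEmbedding]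
  calc
    _ ≤ ∫⁻ q : EE n × ℝ, ENNReal.ofReal (Lam ^ n) * (ENNReal.ofReal lam *
        (ENNReal.ofReal |C1| * g (Φ (Lam • q.1, lam * (q.2 + t))) +
        ENNReal.ofReal |C2| * g (Φ (Lam • q.1, lam * (q.2 + -t))))) := by
        apply lintegral_mono
        intro q
        obtain ⟨y, z⟩ := q
        simp only
        rw [kerC n lam Lam t hl hL hX Φ hm hΦ1 hΦ y z, enorm_mul, enorm_mul]
        have h5 : ‖(lam : ℂ)‖ₑ = ENNReal.ofReal lam := by
          rw [← ofReal_norm, Complex.norm_real, Real.norm_eq_abs, abs_of_pos hl0]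
        have h6 : ‖((Lam ^ n : ℝ) : ℂ)‖ₑ = ENNReal.ofReal (Lam ^ n) := by
          rw [← ofReal_norm, Complex.norm_real, Real.norm_eq_abs, abs_of_pos (by positivity)]
        rw [h5, h6]
        gcongr
        refine (enorm_add_le _ _).trans ?_
        exact add_le_add (hb C1 1 hC1 _) (hb C2 (-1) hC2 _)
    _ = ENNReal.ofReal (Lam ^ n) * (ENNReal.ofReal lam *
        (ENNReal.ofReal |C1| * (ENNReal.ofReal ((Lam ^ n)⁻¹) * (ENNReal.ofReal (lam⁻¹) * J)) +
        ENNReal.ofReal |C2| * (ENNReal.ofReal ((Lam ^ n)⁻¹) * (ENNReal.ofReal (lam⁻¹) * J)))) := by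
        have h6 : Measurable (fun q : EE n × ℝ => g (Φ (Lam • q.1, lam * (q.2 + t)))) :=
          (hgm.comp Φ.measurable).comp ((measurable_fst.const_smul Lam).prodMk (by fun_prop))
        rw [lintegral_const_mul' _ _ ENNReal.ofReal_ne_top,
          lintegral_const_mul' _ _ ENNReal.ofReal_ne_top, lintegral_add_left (h6.const_mul _),
          lintegral_const_mul' _ _ ENNReal.ofReal_ne_top, lintegral_const_mul' _ _ ENNReal.ofReal_ne_top,
          shiftscale2 n lam Lam t hl0 hL0 Φ hm g hgm, shiftscale2 n lam Lam (-t) hl0 hL0 Φ hm g hgm,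
          hJ, hg]
    _ = (ENNReal.ofReal (Lam ^ n) * ENNReal.ofReal ((Lam ^ n)⁻¹)) *
        (ENNReal.ofReal lam * ENNReal.ofReal (lam⁻¹)) * (ENNReal.ofReal |C1| * J +
        ENNReal.ofReal |C2| * J) := by ring
    _ ≤ _ := by
        rw [← ENNReal.ofReal_mul hl0.le, mul_inv_cancel₀ hl0.ne', ENNReal.ofReal_one,
          ← ENNReal.ofReal_mul (by positivity), mul_inv_cancel₀ (by positivity),
          ENNReal.ofReal_one, one_mul, one_mul]

end Pool.Agent.H87.BR
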